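import Pool.Agent.H500R3.Prod.Basic

/-! Two-dimensional `U`-bootstrap percolation: definitions. -/

set_option autoImplicit false

namespace Pool.Agent.H500R3.UB
open MeasureTheory ProbabilityTheory Set
open scoped ENNReal

/-- Sites of the square lattice. -/
abbrev Site : Type := ℤ × ℤ

/-- One step of the `U`-bootstrap dynamics. -/
def step (U : Finset (Finset Site)) (A : Set Site) : Set Site :=
  A ∪ {x | ∃ X ∈ U, ∀ y ∈ X, x + y ∈ A}

/-- The set `A_t`. -/
def At (U : Finset (Finset Site)) (A : Set Site) (t : ℕ) : Set Site := (step U)^[t] A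

/-- The closure `[A]`. -/
def cl (U : Finset (Finset Site)) (A : Set Site) : Set Site := ⋃ t, At U A t

/-- The discrete half-plane `{x : ⟨x,u⟩ < 0}`. -/
def halfPlane (u : ℝ × ℝ) : Set Site := {x | (x.1 : ℝ) * u.1 + (x.2 : ℝ) * u.2 < 0}

/-- The unit circle. -/
def circle : Set (ℝ × ℝ) := {u | u.1 ^ 2 + u.2 ^ 2 = 1}

/-- The stable set `S(U)`. -/
def stableSet (U : Finset (Finset Site)) : Set (ℝ × ℝ) :=
  {u | u ∈ circle ∧ cl U (halfPlane u) = halfPlane u}

/-- The law under which every site is in the initial set with probability `p`, independently. -/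
noncomputable def law (p : unitInterval) : Measure (Site → Bool) :=
  Measure.infinitePi (fun _ => bernoulliMeasure true false p)

/-- The initial set. -/
def init (ω : Site → Bool) : Set Site := {x | ω x = true}

/-- The event `[A] = ℤ²`. -/
def perc (U : Finset (Finset Site)) : Set (Site → Bool) := {ω | cl U (init ω) = univ}

/-- The critical probability. -/
noncomputable def pc (U : Finset (Finset Site)) : ℝ :=
  sInf {q : ℝ | ∃ p : unitInterval, (p : ℝ) = q ∧ law p (perc U) = 1}

/-- The occupation time of the origin (`∞` if the origin is never occupied). -/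
noncomputable def T (U : Finset (Finset Site)) (ω : Site → Bool) : ℝ≥0∞ :=
  ⨅ t ∈ {t : ℕ | (0 : Site) ∈ At U (init ω) t}, (t : ℝ≥0∞)

variable {U : Finset (Finset Site)}

theorem At_zero (A : Set Site) : At U A 0 = A := rfl

theorem At_succ (A : Set Site) (t : ℕ) : At U A (t + 1) = step U (At U A t) := by
  unfold At
  rw [Function.iterate_succ_apply']

theorem step_mono {A B : Set Site} (h : A ⊆ B) : step U A ⊆ step U B := by
  rintro x (hx | ⟨X, hX, h2⟩)
  · exact Or.inl (h hx)
  · exact Or.inr ⟨X, hX, fun y hy => h (h2 y hy)⟩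

theorem At_mono {A B : Set Site} (h : A ⊆ B) (t : ℕ) : At U A t ⊆ At U B t := by
  induction t with
  | zero => exact h
  | succ t ih => rw [At_succ, At_succ]; exact step_mono ih

theorem At_le_succ (A : Set Site) (t : ℕ) : At U A t ⊆ At U A (t + 1) := by
  rw [At_succ]; exact fun x hx => Or.inl hx

theorem At_le {A : Set Site} {s t : ℕ} (h : s ≤ t) : At U A s ⊆ At U A t := by
  induction h with
  | refl => exact Subset.rfl
  | step _ ih => exact ih.trans (At_le_succ A _)

theorem cl_mono {A B : Set Site} (h : A ⊆ B) : cl U A ⊆ cl U B :=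
  iUnion_mono (fun t => At_mono h t)

theorem sub_cl (A : Set Site) : A ⊆ cl U A := subset_iUnion (At U A) 0

theorem cl_closed {A : Set Site} {x : Site} {X : Finset Site} (hX : X ∈ U)
    (h : ∀ y ∈ X, x + y ∈ cl U A) : x ∈ cl U A := by
  have h1 : ∀ y ∈ X, ∃ t, x + y ∈ At U A t := fun y hy => mem_iUnion.1 (h y hy)
  choose! τ hτ using h1
  have h2 : x ∈ At U A (X.sup τ + 1) := by
    rw [At_succ]
    exact Or.inr ⟨X, hX, fun y hy => At_le (Finset.le_sup hy) (hτ y hy)⟩
  exact mem_iUnion.2 ⟨_, h2⟩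

theorem cl_min {A C : Set Site} (hA : A ⊆ C)
    (hC : ∀ x, ∀ X ∈ U, (∀ y ∈ X, x + y ∈ C) → x ∈ C) : cl U A ⊆ C := by
  apply iUnion_subset
  intro t
  induction t with
  | zero => exact hA
  | succ t ih =>
    rw [At_succ]
    rintro x (hx | ⟨X, hX, h2⟩)
    · exact ih hx
    · exact hC x X hX (fun y hy => ih (h2 y hy))

/-- box of radius `n` -/
noncomputable def box (x : Site) (n : ℕ) : Finset Site :=
  Finset.Icc (x.1 - n) (x.1 + n) ×ˢ Finset.Icc (x.2 - n) (x.2 + n)

theorem mem_box {x y : Site} {n : ℕ} :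
    y ∈ box x n ↔ (x.1 - n ≤ y.1 ∧ y.1 ≤ x.1 + n) ∧ (x.2 - n ≤ y.2 ∧ y.2 ≤ x.2 + n) := by
  unfold box
  rw [Finset.mem_product, Finset.mem_Icc, Finset.mem_Icc]

/-- `r` bounds the range of the family -/
def Range (U : Finset (Finset Site)) (r : ℕ) : Prop := ∀ X ∈ U, ∀ y ∈ X, y ∈ box 0 r

theorem exists_range (U : Finset (Finset Site)) : ∃ r : ℕ, 1 ≤ r ∧ Range U r := by
  classical
  refine ⟨(U.sup (fun X => X.sup (fun y => y.1.natAbs + y.2.natAbs))) + 1, by omega, ?_⟩
  intro X hX y hy
  have h1 : y.1.natAbs + y.2.natAbs ≤ X.sup (fun y => y.1.natAbs + y.2.natAbs) :=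
    Finset.le_sup (f := fun y : Site => y.1.natAbs + y.2.natAbs) hy
  have h2 : X.sup (fun y => y.1.natAbs + y.2.natAbs) ≤
      U.sup (fun X => X.sup (fun y => y.1.natAbs + y.2.natAbs)) :=
    Finset.le_sup (f := fun X : Finset Site => X.sup (fun y => y.1.natAbs + y.2.natAbs)) hX
  rw [mem_box]
  push_cast
  simp only [Prod.fst_zero, Prod.snd_zero]
  omega

theorem At_local {r : ℕ} (hr : Range U r) (A : Set Site) (t : ℕ) :
    ∀ x, x ∈ At U A t → x ∈ At U (A ∩ box x (r * t)) t := by
  induction t with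
  | zero =>
    intro x hx
    refine ⟨hx, ?_⟩
    rw [Finset.mem_coe, mem_box]
    simp
  | succ t ih =>
    intro x hx
    rw [At_succ] at hx ⊢
    rcases hx with hx | ⟨X, hX, h2⟩
    · left
      refine At_mono ?_ t (ih x hx)
      apply inter_subset_inter_right
      intro y hy
      rw [Finset.mem_coe, mem_box] at hy ⊢
      push_cast at hy ⊢
      constructor <;> constructor <;> nlinarith [hy.1.1, hy.1.2, hy.2.1, hy.2.2]
    · right
      refine ⟨X, hX, ?_⟩
      intro y hy
      refine At_mono ?_ t (ih (x + y) (h2 y hy))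
      apply inter_subset_inter_right
      intro z hz
      have h3 := hr X hX y hy
      rw [mem_box] at h3
      rw [Finset.mem_coe, mem_box] at hz ⊢
      push_cast at hz ⊢
      simp only [Prod.fst_add, Prod.snd_add, Prod.fst_zero, Prod.snd_zero] at hz h3
      constructor <;> constructor <;> nlinarith [hz.1.1, hz.1.2, hz.2.1, hz.2.2, h3.1.1, h3.1.2, h3.2.1, h3.2.2]

theorem cl_local {r : ℕ} (hr : Range U r) {A : Set Site} {x : Site} (h : x ∈ cl U A) :
    ∃ n : ℕ, x ∈ cl U (A ∩ box x n) := by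
  obtain ⟨t, ht⟩ := mem_iUnion.1 h
  exact ⟨r * t, mem_iUnion.2 ⟨t, At_local hr A t x ht⟩⟩

/-- translation -/
theorem cl_shift (A : Set Site) (v x : Site) : x ∈ cl U {y | y + v ∈ A} ↔ x + v ∈ cl U A := by
  have h1 : ∀ t, At U {y | y + v ∈ A} t = {y | y + v ∈ At U A t} := by
    intro t
    induction t with
    | zero => rfl
    | succ t ih =>
      rw [At_succ, At_succ, ih]
      ext y
      constructor
      · rintro (hy | ⟨X, hX, h2⟩)
        · exact Or.inl hy
        · refine Or.inr ⟨X, hX, fun z hz => ?_⟩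
          have := h2 z hz
          rw [mem_setOf_eq] at this
          rwa [add_right_comm] at this
      · rintro (hy | ⟨X, hX, h2⟩)
        · exact Or.inl hy
        · refine Or.inr ⟨X, hX, fun z hz => ?_⟩
          have := h2 z hz
          rw [mem_setOf_eq]
          rwa [add_right_comm]
  unfold cl
  rw [mem_iUnion, mem_iUnion]
  simp_rw [h1]
  rfl

/-- there is no finite nonempty set which stays healthy -/
def NoFinite (U : Finset (Finset Site)) : Prop :=
  ∀ H : Finset Site, H.Nonempty → ∃ x ∈ H, ∃ X ∈ U, ∀ y ∈ X, x + y ∉ H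

/-- the annulus -/
noncomputable def ann (n r : ℕ) : Finset Site := box 0 (n + r) \ box 0 n

/-- if the origin is healthy, so is some site of the annulus -/
theorem exists_ann {r : ℕ} (hr : Range U r) (hN : NoFinite U) (A : Set Site) (n : ℕ)
    (h : (0 : Site) ∉ cl U A) : ∃ x ∈ ann n r, x ∉ cl U A := by
  classical
  by_contra hcon
  push Not at hcon
  obtain ⟨x, hx, X, hX, h2⟩ := hN ((box 0 n).filter (fun y => y ∉ cl U A)) ⟨0, by
    rw [Finset.mem_filter, mem_box]
    refine ⟨?_, h⟩
    simp⟩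
  rw [Finset.mem_filter] at hx
  apply hx.2
  apply cl_closed hX
  intro y hy
  by_contra hy2
  have h3 := hr X hX y hy
  by_cases hb : x + y ∈ box 0 n
  · exact h2 y hy (Finset.mem_filter.2 ⟨hb, hy2⟩)
  · apply hy2
    apply hcon
    unfold ann
    rw [Finset.mem_sdiff]
    refine ⟨?_, hb⟩
    rw [mem_box] at h3 ⊢
    have h4 := hx.1
    rw [mem_box] at h4
    push_cast
    simp only [Prod.fst_add, Prod.snd_add, Prod.fst_zero, Prod.snd_zero] at h3 h4 ⊢
    omega

theorem card_ann {n r : ℕ} (hr : 1 ≤ r) (h : r ≤ n) : (ann n r).card ≤ 16 * r * n := by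
  have hsub : box 0 n ⊆ box 0 (n + r) := by
    intro x hx
    rw [mem_box] at hx ⊢
    push_cast
    omega
  have h1 : ∀ m : ℕ, (box 0 m).card = (2 * m + 1) ^ 2 := by
    intro m
    unfold box
    rw [Finset.card_product, Int.card_Icc, Int.card_Icc]
    simp only [Prod.fst_zero, Prod.snd_zero]
    have : ((0 : ℤ) + m + 1 - (0 - m)).toNat = 2 * m + 1 := by omega
    rw [this]
    ring
  unfold ann
  rw [Finset.card_sdiff_of_subset hsub, h1, h1]
  have : (2 * (n + r) + 1) ^ 2 = (2 * n + 1) ^ 2 + 4 * r * (2 * n + r + 1) := by ring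
  rw [this, Nat.add_sub_cancel_left]
  nlinarith

end Pool.Agent.H500R3.UB
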