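import Pool.Agent.H500R3.UB.Prob

/-! Geometry of stable sets. -/

set_option autoImplicit false

namespace Pool.Agent.H500R3.UB
open MeasureTheory ProbabilityTheory Set
open scoped ENNReal

variable {U : Finset (Finset Site)}

/-- inner product with `u` -/
noncomputable def ip (u : ℝ × ℝ) (x : Site) : ℝ := (x.1 : ℝ) * u.1 + (x.2 : ℝ) * u.2

theorem ip_add (u : ℝ × ℝ) (x y : Site) : ip u (x + y) = ip u x + ip u y := by
  unfold ip
  simp only [Prod.fst_add, Prod.snd_add, Int.cast_add]
  ring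

theorem mem_halfPlane {u : ℝ × ℝ} {x : Site} : x ∈ halfPlane u ↔ ip u x < 0 := Iff.rfl

theorem ip_zero (u : ℝ × ℝ) : ip u 0 = 0 := by
  simp [ip]

/-- a direction is unstable exactly when some rule points into the half-plane -/
theorem unstable_iff {u : ℝ × ℝ} : cl U (halfPlane u) ≠ halfPlane u ↔
    ∃ X ∈ U, ∀ y ∈ X, ip u y < 0 := by
  constructor
  · intro h
    by_contra hcon
    push Not at hcon
    apply h
    apply Subset.antisymm _ (sub_cl _)
    apply cl_min Subset.rfl
    intro x X hX h2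
    obtain ⟨y, hy, hy2⟩ := hcon X hX
    have h3 := h2 y hy
    rw [mem_halfPlane, ip_add] at h3
    rw [mem_halfPlane]
    linarith
  · rintro ⟨X, hX, h2⟩ h
    have h3 : (0 : Site) ∈ cl U (halfPlane u) := by
      apply cl_closed hX
      intro y hy
      apply sub_cl
      rw [zero_add]
      exact h2 y hy
    rw [h, mem_halfPlane, ip_zero] at h3
    exact lt_irrefl _ h3

theorem noFinite_of_ne (h : stableSet U ≠ circle) : NoFinite U := by
  have h1 : ∃ u ∈ circle, cl U (halfPlane u) ≠ halfPlane u := by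
    by_contra hcon
    push Not at hcon
    apply h
    apply Subset.antisymm
    · exact fun u hu => hu.1
    · exact fun u hu => ⟨hu, hcon u hu⟩
  obtain ⟨u, -, hu⟩ := h1
  obtain ⟨X, hX, h2⟩ := unstable_iff.1 hu
  intro H hH
  obtain ⟨x, hx, hmin⟩ := H.exists_min_image (ip u) hH
  refine ⟨x, hx, X, hX, ?_⟩
  intro y hy hxy
  have h3 := hmin _ hxy
  rw [ip_add] at h3
  linarith [h2 y hy]

/-- embedding into the plane -/
def emb (x : Site) : ℝ × ℝ := ((x.1 : ℝ), (x.2 : ℝ))

theorem emb_inj : Function.Injective emb := by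
  intro x y h
  unfold emb at h
  rw [Prod.mk.injEq] at h
  ext
  · exact_mod_cast h.1
  · exact_mod_cast h.2

theorem weights (h : stableSet U = circle) {X : Finset Site} (hX : X ∈ U) :
    ∃ w : Site → ℝ, (∀ y ∈ X, 0 ≤ w y) ∧ ∑ y ∈ X, w y = 1 ∧
      ∑ y ∈ X, w y * (y.1 : ℝ) = 0 ∧ ∑ y ∈ X, w y * (y.2 : ℝ) = 0 := by
  classical
  have hst : ∀ u ∈ circle, ∃ y ∈ X, 0 ≤ ip u y := by
    intro u hu
    by_contra hcon
    push Not at hcon
    have h1 : u ∈ stableSet U := by rw [h]; exact hu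
    exact (unstable_iff.2 ⟨X, hX, hcon⟩) h1.2
  have hmem : (0 : ℝ × ℝ) ∈ convexHull ℝ ((X.image emb : Finset (ℝ × ℝ)) : Set (ℝ × ℝ)) := by
    by_contra hcon
    have hcl : IsClosed (convexHull ℝ ((X.image emb : Finset (ℝ × ℝ)) : Set (ℝ × ℝ))) :=
      ((Finset.finite_toSet _).isCompact_convexHull ℝ).isClosed
    obtain ⟨f, c, hf1, hf2⟩ := geometric_hahn_banach_point_closed (convex_convexHull ℝ _) hcl hcon
    rw [map_zero] at hf1
    set a : ℝ := f (1, 0) with ha
    set b : ℝ := f (0, 1) with hb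
    have hfy : ∀ y : Site, f (emb y) = (y.1 : ℝ) * a + (y.2 : ℝ) * b := by
      intro y
      have : emb y = (y.1 : ℝ) • ((1 : ℝ), (0 : ℝ)) + (y.2 : ℝ) • ((0 : ℝ), (1 : ℝ)) := by
        unfold emb
        ext <;> simp
      rw [this, map_add, map_smul, map_smul, smul_eq_mul, smul_eq_mul]
    have hpos : ∀ y ∈ X, 0 < (y.1 : ℝ) * a + (y.2 : ℝ) * b := by
      intro y hy
      rw [← hfy]
      have := hf2 (emb y) (subset_convexHull ℝ _ (by
        rw [Finset.mem_coe]; exact Finset.mem_image_of_mem _ hy))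
      linarith
    have hne : ∃ y, y ∈ X := by
      obtain ⟨y, hy, -⟩ := hst (1, 0) (by simp [circle])
      exact ⟨y, hy⟩
    obtain ⟨y0, hy0⟩ := hne
    have hs : 0 < a ^ 2 + b ^ 2 := by
      by_contra hs
      have h1 : a = 0 := by nlinarith [sq_nonneg a, sq_nonneg b]
      have h2 : b = 0 := by nlinarith [sq_nonneg a, sq_nonneg b]
      have := hpos y0 hy0
      rw [h1, h2] at this
      simp at this
    set s : ℝ := Real.sqrt (a ^ 2 + b ^ 2) with hsdef
    have hs0 : 0 < s := Real.sqrt_pos.2 hs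
    have hs2 : s ^ 2 = a ^ 2 + b ^ 2 := Real.sq_sqrt hs.le
    obtain ⟨y, hy, hy2⟩ := hst (-(a / s), -(b / s)) (by
      show (-(a / s)) ^ 2 + (-(b / s)) ^ 2 = 1
      rw [neg_sq, neg_sq, div_pow, div_pow, ← add_div, ← hs2]
      exact div_self (by positivity))
    have h3 := hpos y hy
    unfold ip at hy2
    simp only at hy2
    have h4 : (y.1 : ℝ) * -(a / s) + (y.2 : ℝ) * -(b / s) = -(((y.1 : ℝ) * a + (y.2 : ℝ) * b) / s) := by
      ring
    rw [h4] at hy2
    have h5 : 0 < ((y.1 : ℝ) * a + (y.2 : ℝ) * b) / s := div_pos h3 hs0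
    linarith
  rw [Finset.mem_convexHull'] at hmem
  obtain ⟨w, hw0, hw1, hw2⟩ := hmem
  refine ⟨fun y => w (emb y), ?_, ?_, ?_, ?_⟩
  · intro y hy
    exact hw0 _ (Finset.mem_image_of_mem _ hy)
  · rw [Finset.sum_image (fun x _ y _ hxy => emb_inj hxy)] at hw1
    exact hw1
  · rw [Finset.sum_image (fun x _ y _ hxy => emb_inj hxy)] at hw2
    have := congrArg Prod.fst hw2
    rw [Prod.fst_sum] at this
    simpa [emb] using this
  · rw [Finset.sum_image (fun x _ y _ hxy => emb_inj hxy)] at hw2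
    have := congrArg Prod.snd hw2
    rw [Prod.snd_sum] at this
    simpa [emb] using this

/-- representation of a site by weights -/
def Rep (U : Finset (Finset Site)) (L : ℕ) (x : Site) : Prop :=
  ∃ μ : Finset Site → Site → ℝ, (∀ X ∈ U, ∀ y ∈ X, 0 ≤ μ X y) ∧ (∀ X ∈ U, ∑ y ∈ X, μ X y = 1) ∧
    (x.1 : ℝ) = -(L * ∑ X ∈ U, ∑ y ∈ X, μ X y * (y.1 : ℝ)) ∧
    (x.2 : ℝ) = -(L * ∑ X ∈ U, ∑ y ∈ X, μ X y * (y.2 : ℝ))

theorem rep_bound {r L : ℕ} (hr : Range U r) {x : Site} (h : Rep U L x) :
    x ∈ box 0 (L * U.card * r) := by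
  obtain ⟨μ, h0, h1, h2, h3⟩ := h
  have key : ∀ g : Site → ℝ, (∀ X ∈ U, ∀ y ∈ X, |g y| ≤ r) →
      |(L : ℝ) * ∑ X ∈ U, ∑ y ∈ X, μ X y * g y| ≤ ((L * U.card * r : ℕ) : ℝ) := by
    intro g hg
    rw [abs_mul, abs_of_nonneg (Nat.cast_nonneg L)]
    push_cast
    rw [mul_assoc]
    apply mul_le_mul_of_nonneg_left _ (Nat.cast_nonneg L)
    calc |∑ X ∈ U, ∑ y ∈ X, μ X y * g y| ≤ ∑ X ∈ U, |∑ y ∈ X, μ X y * g y| :=
          Finset.abs_sum_le_sum_abs _ _
      _ ≤ ∑ X ∈ U, (r : ℝ) := by
          apply Finset.sum_le_sum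
          intro X hX
          calc |∑ y ∈ X, μ X y * g y| ≤ ∑ y ∈ X, |μ X y * g y| := Finset.abs_sum_le_sum_abs _ _
            _ ≤ ∑ y ∈ X, μ X y * r := by
                apply Finset.sum_le_sum
                intro y hy
                rw [abs_mul, abs_of_nonneg (h0 X hX y hy)]
                exact mul_le_mul_of_nonneg_left (hg X hX y hy) (h0 X hX y hy)
            _ = r := by rw [← Finset.sum_mul, h1 X hX, one_mul]
      _ = U.card * r := by rw [Finset.sum_const, nsmul_eq_mul]
  have k1 := key (fun y => (y.1 : ℝ)) (by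
    intro X hX y hy
    have := hr X hX y hy
    rw [mem_box] at this
    simp only [Prod.fst_zero, Prod.snd_zero] at this
    rw [abs_le]
    constructor
    · have : (-(r : ℤ)) ≤ y.1 := by omega
      exact_mod_cast this
    · have : y.1 ≤ (r : ℤ) := by omega
      exact_mod_cast this)
  have k2 := key (fun y => (y.2 : ℝ)) (by
    intro X hX y hy
    have := hr X hX y hy
    rw [mem_box] at this
    simp only [Prod.fst_zero, Prod.snd_zero] at this
    rw [abs_le]
    constructor
    · have : (-(r : ℤ)) ≤ y.2 := by omega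
      exact_mod_cast this
    · have : y.2 ≤ (r : ℤ) := by omega
      exact_mod_cast this)
  rw [← abs_neg, ← h2, abs_le] at k1
  rw [← abs_neg, ← h3, abs_le] at k2
  rw [mem_box]
  simp only [Prod.fst_zero, Prod.snd_zero]
  have a1 : -((L * U.card * r : ℕ) : ℤ) ≤ x.1 := by exact_mod_cast k1.1
  have a2 : x.1 ≤ ((L * U.card * r : ℕ) : ℤ) := by exact_mod_cast k1.2
  have a3 : -((L * U.card * r : ℕ) : ℤ) ≤ x.2 := by exact_mod_cast k2.1
  have a4 : x.2 ≤ ((L * U.card * r : ℕ) : ℤ) := by exact_mod_cast k2.2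
  omega

theorem not_noFinite (h : stableSet U = circle) : ¬ NoFinite U := by
  classical
  intro hN
  obtain ⟨r, hr1, hr⟩ := exists_range U
  have hw : ∀ X, ∃ w : Site → ℝ, X ∈ U → ((∀ y ∈ X, 0 ≤ w y) ∧ ∑ y ∈ X, w y = 1 ∧
      ∑ y ∈ X, w y * (y.1 : ℝ) = 0 ∧ ∑ y ∈ X, w y * (y.2 : ℝ) = 0) := by
    intro X
    by_cases hX : X ∈ U
    · obtain ⟨w, hw⟩ := weights h hX
      exact ⟨w, fun _ => hw⟩
    · exact ⟨fun _ => 0, fun hX2 => absurd hX2 hX⟩
  choose ν hν using hw
  set L : ℕ := (U.sup Finset.card) + 1 with hL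
  have hL0 : (0 : ℝ) < L := by rw [hL]; positivity
  obtain ⟨x, hx, X, hX, hout⟩ := hN ((box 0 (L * U.card * r)).filter (fun x => Rep U L x)) ⟨0, by
    rw [Finset.mem_filter]
    constructor
    · rw [mem_box]
      simp only [Prod.fst_zero, Prod.snd_zero]
      omega
    · refine ⟨ν, fun X hX => (hν X hX).1, fun X hX => (hν X hX).2.1, ?_, ?_⟩
      · rw [Finset.sum_eq_zero (fun X hX => (hν X hX).2.2.1)]; simp
      · rw [Finset.sum_eq_zero (fun X hX => (hν X hX).2.2.2)]; simp⟩
  rw [Finset.mem_filter] at hx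
  obtain ⟨μ, h0, h1, h2, h3⟩ := hx.2
  -- a rule element with a large weight
  have hex : ∃ y ∈ X, 1 / (L : ℝ) ≤ μ X y := by
    by_contra hcon
    push Not at hcon
    have h4 : ∑ y ∈ X, μ X y ≤ ∑ y ∈ X, 1 / (L : ℝ) :=
      Finset.sum_le_sum (fun y hy => (hcon y hy).le)
    rw [h1 X hX, Finset.sum_const, nsmul_eq_mul, mul_one_div, le_div_iff₀ hL0, one_mul] at h4
    have h5 : X.card ≤ U.sup Finset.card := Finset.le_sup (f := Finset.card) hX
    have h6 : L ≤ X.card := by exact_mod_cast h4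
    omega
  obtain ⟨y0, hy0, hy0L⟩ := hex
  apply hout y0 hy0
  have hrep : Rep U L (x + y0) := by
    refine ⟨fun Z y => if Z = X then μ X y - (if y = y0 then 1 / (L : ℝ) else 0) + ν X y / L
      else μ Z y, ?_, ?_, ?_, ?_⟩
    · intro Z hZ y hy
      by_cases hZX : Z = X
      · subst hZX
        simp only [if_true]
        have h7 : 0 ≤ ν Z y / L := div_nonneg ((hν Z hZ).1 y hy) hL0.le
        by_cases hyy : y = y0
        · subst hyy
          simp only [if_true]
          linarith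
        · simp only [if_neg hyy]
          linarith [h0 Z hZ y hy]
      · simp only [if_neg hZX]
        exact h0 Z hZ y hy
    · intro Z hZ
      by_cases hZX : Z = X
      · subst hZX
        simp only [if_true]
        rw [Finset.sum_add_distrib, Finset.sum_sub_distrib, h1 Z hZ, Finset.sum_ite_eq' Z y0,
          if_pos hy0, ← Finset.sum_div, (hν Z hZ).2.1]
        ring
      · simp only [if_neg hZX]
        exact h1 Z hZ
    · have e : ∀ g : Site → ℝ, ∑ y ∈ X, ν X y * g y = 0 →
          ∑ Z ∈ U, ∑ y ∈ Z, (if Z = X then μ X y - (if y = y0 then 1 / (L : ℝ) else 0) + ν X y / L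
            else μ Z y) * g y = ∑ Z ∈ U, ∑ y ∈ Z, μ Z y * g y - g y0 / L := by
        intro g hg
        rw [← Finset.add_sum_erase U _ hX, ← Finset.add_sum_erase U (fun Z => ∑ y ∈ Z, μ Z y * g y) hX]
        simp only [if_true]
        have e1 : ∑ y ∈ X, (μ X y - (if y = y0 then 1 / (L : ℝ) else 0) + ν X y / L) * g y =
            ∑ y ∈ X, μ X y * g y - g y0 / L := by
          have e2 : ∀ y ∈ X, (μ X y - (if y = y0 then 1 / (L : ℝ) else 0) + ν X y / L) * g y =
              μ X y * g y - (if y = y0 then g y / L else 0) + (ν X y * g y) / L := by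
            intro y _
            split_ifs <;> ring
          rw [Finset.sum_congr rfl e2, Finset.sum_add_distrib, Finset.sum_sub_distrib,
            Finset.sum_ite_eq' X y0, if_pos hy0, ← Finset.sum_div, hg]
          ring
        rw [e1]
        have e3 : ∑ Z ∈ U.erase X, ∑ y ∈ Z, (if Z = X then μ X y - (if y = y0 then 1 / (L : ℝ) else 0) +
            ν X y / L else μ Z y) * g y = ∑ Z ∈ U.erase X, ∑ y ∈ Z, μ Z y * g y := by
          apply Finset.sum_congr rfl
          intro Z hZ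
          have : Z ≠ X := (Finset.mem_erase.1 hZ).1
          simp only [if_neg this]
        rw [e3]
        ring
      rw [e (fun y => (y.1 : ℝ)) (hν X hX).2.2.1, Prod.fst_add, Int.cast_add, h2, mul_sub,
        mul_div_cancel₀ _ hL0.ne']
      ring
    · have e : ∀ g : Site → ℝ, ∑ y ∈ X, ν X y * g y = 0 →
          ∑ Z ∈ U, ∑ y ∈ Z, (if Z = X then μ X y - (if y = y0 then 1 / (L : ℝ) else 0) + ν X y / L
            else μ Z y) * g y = ∑ Z ∈ U, ∑ y ∈ Z, μ Z y * g y - g y0 / L := by
        intro g hg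
        rw [← Finset.add_sum_erase U _ hX, ← Finset.add_sum_erase U (fun Z => ∑ y ∈ Z, μ Z y * g y) hX]
        simp only [if_true]
        have e1 : ∑ y ∈ X, (μ X y - (if y = y0 then 1 / (L : ℝ) else 0) + ν X y / L) * g y =
            ∑ y ∈ X, μ X y * g y - g y0 / L := by
          have e2 : ∀ y ∈ X, (μ X y - (if y = y0 then 1 / (L : ℝ) else 0) + ν X y / L) * g y =
              μ X y * g y - (if y = y0 then g y / L else 0) + (ν X y * g y) / L := by
            intro y _
            split_ifs <;> ring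
          rw [Finset.sum_congr rfl e2, Finset.sum_add_distrib, Finset.sum_sub_distrib,
            Finset.sum_ite_eq' X y0, if_pos hy0, ← Finset.sum_div, hg]
          ring
        rw [e1]
        have e3 : ∑ Z ∈ U.erase X, ∑ y ∈ Z, (if Z = X then μ X y - (if y = y0 then 1 / (L : ℝ) else 0) +
            ν X y / L else μ Z y) * g y = ∑ Z ∈ U.erase X, ∑ y ∈ Z, μ Z y * g y := by
          apply Finset.sum_congr rfl
          intro Z hZ
          have : Z ≠ X := (Finset.mem_erase.1 hZ).1
          simp only [if_neg this]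
        rw [e3]
        ring
      rw [e (fun y => (y.2 : ℝ)) (hν X hX).2.2.2, Prod.snd_add, Int.cast_add, h3, mul_sub,
        mul_div_cancel₀ _ hL0.ne']
      ring
  rw [Finset.mem_filter]
  exact ⟨rep_bound hr hrep, hrep⟩

/-- families with a nonempty stable set have no empty rule -/
theorem empty_notMem (h : (stableSet U).Nonempty) : (∅ : Finset Site) ∉ U := by
  intro he
  obtain ⟨u, hu⟩ := h
  exact (unstable_iff.2 ⟨∅, he, fun y hy => absurd hy (Finset.notMem_empty y)⟩) hu.2

theorem cl_empty (h : (∅ : Finset Site) ∉ U) : cl U ∅ = ∅ := by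
  apply subset_eq_empty _ rfl
  apply cl_min Subset.rfl
  intro x X hX h2
  have hne : X.Nonempty := by
    rw [Finset.nonempty_iff_ne_empty]
    rintro rfl
    exact h hX
  obtain ⟨y, hy⟩ := hne
  exact h2 y hy

theorem perc_zero (h : (∅ : Finset Site) ∉ U) : law 0 (perc U) ≠ 1 := by
  rw [law_zero, Measure.dirac_apply]
  have : (fun _ : Site => false) ∉ perc U := by
    intro h2
    have h3 : cl U (init (fun _ => false)) = univ := h2
    have h4 : init (fun _ => false) = ∅ := by ext x; simp [init]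
    rw [h4, cl_empty h] at h3
    exact empty_ne_univ h3
  rw [indicator_of_notMem this]
  exact zero_ne_one

end Pool.Agent.H500R3.UB
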