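import Pool.Agent.H500R3.UB.Def

/-! The finite size criterion. -/

set_option autoImplicit false
set_option linter.unusedSectionVars false

namespace Pool.Agent.H500R3.UB
open MeasureTheory ProbabilityTheory Set
open scoped ENNReal
open Pool.Agent.H500R3.Prod (Dep Pm Pm_indep Pm_map Pm_eq_sum tr)

variable {U : Finset (Finset Site)}

instance (p : unitInterval) : IsProbabilityMeasure (law p) := by unfold law; infer_instance

theorem law_eq (p : unitInterval) : law p = Pm (bernoulliMeasure true false p) := rfl

/-- `x` is not in the closure of the initial sites of the box of radius `n` around `x` -/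
def hl (U : Finset (Finset Site)) (x : Site) (n : ℕ) : Set (Site → Bool) :=
  {ω | x ∉ cl U (init ω ∩ box x n)}

theorem hl_dep (x : Site) (n : ℕ) : Dep (box x n : Set Site) (hl U x n) := by
  intro ω ω' h
  have : init ω ∩ box x n = init ω' ∩ box x n := by
    ext y
    constructor
    · rintro ⟨h1, h2⟩
      refine ⟨?_, h2⟩
      show ω' y = true
      rw [← h y h2]; exact h1
    · rintro ⟨h1, h2⟩
      refine ⟨?_, h2⟩
      show ω y = true
      rw [h y h2]; exact h1
  show (x ∉ cl U (init ω ∩ box x n)) ↔ (x ∉ cl U (init ω' ∩ box x n))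
  rw [this]

theorem hl_meas (x : Site) (n : ℕ) : MeasurableSet (hl U x n) := (hl_dep x n).measurableSet

theorem hl_shift (x : Site) (n : ℕ) :
    hl U x n = {ω | (fun i => ω (i + x)) ∈ hl U 0 n} := by
  ext ω
  show (x ∉ cl U (init ω ∩ box x n)) ↔ (0 : Site) ∉ cl U (init (fun i => ω (i + x)) ∩ box 0 n)
  have h := cl_shift (U := U) (init ω ∩ box x n) x 0
  rw [zero_add] at h
  rw [← h]
  have : {y | y + x ∈ init ω ∩ ↑(box x n)} = init (fun i => ω (i + x)) ∩ ↑(box 0 n) := by
    ext y
    constructor
    · rintro ⟨h1, h2⟩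
      refine ⟨h1, ?_⟩
      rw [Finset.mem_coe, mem_box] at h2 ⊢
      simp only [Prod.fst_add, Prod.snd_add, Prod.fst_zero, Prod.snd_zero] at h2 ⊢
      omega
    · rintro ⟨h1, h2⟩
      refine ⟨h1, ?_⟩
      rw [Finset.mem_coe, mem_box] at h2 ⊢
      simp only [Prod.fst_add, Prod.snd_add, Prod.fst_zero, Prod.snd_zero] at h2 ⊢
      omega
  rw [this]

/-- the finite volume quantity -/
noncomputable def th (U : Finset (Finset Site)) (p : unitInterval) (n : ℕ) : ℝ :=
  (law p).real (hl U 0 n)

theorem th_shift (p : unitInterval) (x : Site) (n : ℕ) : (law p).real (hl U x n) = th U p n := by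
  unfold th
  rw [measureReal_def, measureReal_def]
  congr 1
  rw [hl_shift x n, law_eq]
  exact Pm_map _ (fun a b h => by simpa using h) (hl_meas 0 n)

theorem th_rec {r m : ℕ} (hr : Range U r) (hr1 : 1 ≤ r) (hrm : r ≤ m) (hN : NoFinite U)
    (p : unitInterval) : th U p (4 * m) ≤ 32 * r * m * th U p m ^ 2 := by
  have hsub : hl U 0 (4 * m) ⊆ ⋃ x ∈ ann (2 * m) r, (hl U 0 m ∩ hl U x m) := by
    intro ω hω
    obtain ⟨x, hx, hxc⟩ := exists_ann hr hN (init ω ∩ box 0 (4 * m)) (2 * m) hω
    rw [mem_iUnion₂]
    refine ⟨x, hx, ?_, ?_⟩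
    · intro hcon
      apply hω
      refine cl_mono ?_ hcon
      apply inter_subset_inter_right
      intro y hy
      rw [Finset.mem_coe, mem_box] at hy ⊢
      push_cast
      omega
    · intro hcon
      apply hxc
      refine cl_mono ?_ hcon
      apply inter_subset_inter_right
      intro y hy
      unfold ann at hx
      rw [Finset.mem_sdiff, mem_box, mem_box] at hx
      rw [Finset.mem_coe, mem_box] at hy ⊢
      push_cast at hx ⊢
      simp only [Prod.fst_zero, Prod.snd_zero] at hx ⊢
      omega
  have hind : ∀ x ∈ ann (2 * m) r, (law p).real (hl U 0 m ∩ hl U x m) = th U p m ^ 2 := by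
    intro x hx
    have hdis : Disjoint (box 0 m) (box x m) := by
      rw [Finset.disjoint_left]
      intro y hy1 hy2
      unfold ann at hx
      rw [Finset.mem_sdiff, mem_box, mem_box] at hx
      rw [mem_box] at hy1 hy2
      push_cast at hx
      simp only [Prod.fst_zero, Prod.snd_zero] at hx hy1
      omega
    rw [measureReal_def, law_eq, Pm_indep _ hdis (hl_dep 0 m) (hl_dep x m), ENNReal.toReal_mul, sq]
    congr 1
    exact th_shift p x m
  unfold th at *
  calc (law p).real (hl U 0 (4 * m)) ≤ (law p).real (⋃ x ∈ ann (2 * m) r, (hl U 0 m ∩ hl U x m)) :=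
        measureReal_mono hsub (measure_ne_top _ _)
    _ ≤ ∑ x ∈ ann (2 * m) r, (law p).real (hl U 0 m ∩ hl U x m) :=
        measureReal_biUnion_finset_le _ _
    _ = ∑ x ∈ ann (2 * m) r, (law p).real (hl U 0 m) ^ 2 := Finset.sum_congr rfl hind
    _ = ((ann (2 * m) r).card : ℝ) * (law p).real (hl U 0 m) ^ 2 := by
        rw [Finset.sum_const, nsmul_eq_mul]
    _ ≤ 32 * r * m * (law p).real (hl U 0 m) ^ 2 := by
        apply mul_le_mul_of_nonneg_right _ (sq_nonneg _)
        have h1 := card_ann (n := 2 * m) hr1 (by omega)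
        have h2 : ((ann (2 * m) r).card : ℝ) ≤ ((16 * r * (2 * m) : ℕ) : ℝ) := by exact_mod_cast h1
        push_cast at h2
        linarith

theorem th_nonneg (p : unitInterval) (n : ℕ) : 0 ≤ th U p n := measureReal_nonneg

/-- the criterion -/
theorem criterion {r m : ℕ} (hr : Range U r) (hr1 : 1 ≤ r) (hrm : r ≤ m) (hN : NoFinite U)
    (p : unitInterval) (h : m * th U p m ≤ 1 / (256 * r)) : law p (perc U) = 1 := by
  have hr0 : (0 : ℝ) < r := by exact_mod_cast hr1
  have hm0 : (1 : ℝ) ≤ m := by exact_mod_cast (le_trans hr1 hrm)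
  have key : ∀ k : ℕ, ((4 ^ k * m : ℕ) : ℝ) * th U p (4 ^ k * m) ≤ (1 / 2) ^ k * (1 / (256 * r)) := by
    intro k
    induction k with
    | zero => simpa using h
    | succ k ih =>
      have hrk : r ≤ 4 ^ k * m := le_trans hrm (Nat.le_mul_of_pos_left m (by positivity))
      have h1 := th_rec hr hr1 hrk hN p
      have e1 : 4 ^ (k + 1) * m = 4 * (4 ^ k * m) := by ring
      rw [e1]
      set M : ℕ := 4 ^ k * m with hM
      set b : ℝ := (M : ℝ) * th U p M with hb
      have hb0 : 0 ≤ b := mul_nonneg (Nat.cast_nonneg _) (th_nonneg p M)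
      have h2 : ((4 * M : ℕ) : ℝ) * th U p (4 * M) ≤ 128 * r * b ^ 2 := by
        push_cast
        calc 4 * (M : ℝ) * th U p (4 * M) ≤ 4 * (M : ℝ) * (32 * r * M * th U p M ^ 2) :=
              mul_le_mul_of_nonneg_left h1 (by positivity)
          _ = 128 * r * b ^ 2 := by rw [hb]; ring
      have h3 : b ≤ 1 / (256 * r) := by
        refine le_trans ih ?_
        have : ((1 : ℝ) / 2) ^ k ≤ 1 := pow_le_one₀ (by norm_num) (by norm_num)
        have h4 : (0 : ℝ) ≤ 1 / (256 * r) := by positivity
        nlinarith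
      have h5 : 128 * r * b ^ 2 ≤ 1 / 2 * b := by
        have : 128 * (r : ℝ) * b ≤ 1 / 2 := by
          calc 128 * (r : ℝ) * b ≤ 128 * (r : ℝ) * (1 / (256 * r)) :=
                mul_le_mul_of_nonneg_left h3 (by positivity)
            _ = 1 / 2 := by field_simp; norm_num
        nlinarith
      calc ((4 * M : ℕ) : ℝ) * th U p (4 * M) ≤ 1 / 2 * b := le_trans h2 h5
        _ ≤ 1 / 2 * ((1 / 2) ^ k * (1 / (256 * r))) := mul_le_mul_of_nonneg_left ih (by norm_num)
        _ = (1 / 2) ^ (k + 1) * (1 / (256 * r)) := by ring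
  have hlim : ∀ k : ℕ, th U p (4 ^ k * m) ≤ (1 / 2) ^ k := by
    intro k
    have h1 := key k
    have h2 : (1 : ℝ) ≤ ((4 ^ k * m : ℕ) : ℝ) := by
      have : 1 ≤ 4 ^ k * m := by
        have h3 : 1 ≤ 4 ^ k := Nat.one_le_pow _ _ (by norm_num)
        have h4 : 1 ≤ m := by omega
        nlinarith
      exact_mod_cast this
    have h3 : 1 / (256 * (r : ℝ)) ≤ 1 := by
      rw [div_le_one (by positivity)]
      have : (1 : ℝ) ≤ r := by exact_mod_cast hr1
      linarith
    have h4 := th_nonneg (U := U) p (4 ^ k * m)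
    have h5 : (0 : ℝ) ≤ (1 / 2) ^ k := by positivity
    nlinarith
  have hzero : ∀ x : Site, law p {ω | x ∉ cl U (init ω)} = 0 := by
    intro x
    have h1 : ∀ k : ℕ, (law p).real {ω | x ∉ cl U (init ω)} ≤ (1 / 2) ^ k := by
      intro k
      refine le_trans ?_ (hlim k)
      rw [← th_shift p x]
      apply measureReal_mono _ (measure_ne_top _ _)
      intro ω hω hcon
      exact hω (cl_mono inter_subset_left hcon)
    have h2 : (law p).real {ω | x ∉ cl U (init ω)} ≤ 0 := by
      have := tendsto_pow_atTop_nhds_zero_of_lt_one (r := (1 / 2 : ℝ)) (by norm_num) (by norm_num)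
      exact ge_of_tendsto' this h1
    have h3 : (law p).real {ω | x ∉ cl U (init ω)} = 0 := le_antisymm h2 measureReal_nonneg
    rw [measureReal_def, ENNReal.toReal_eq_zero_iff] at h3
    rcases h3 with h3 | h3
    · exact h3
    · exact absurd h3 (measure_ne_top _ _)
  have hcompl : law p (perc U)ᶜ = 0 := by
    have : (perc U)ᶜ ⊆ ⋃ x : Site, {ω | x ∉ cl U (init ω)} := by
      intro ω hω
      rw [mem_iUnion]
      by_contra hcon
      push Not at hcon
      apply hω
      show cl U (init ω) = univ
      rw [eq_univ_iff_forall]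
      intro x
      by_contra hx
      exact hcon x hx
    refine measure_mono_null this ?_
    rw [measure_iUnion_null_iff]
    exact hzero
  apply le_antisymm prob_le_one
  have h1 : law p univ ≤ law p (perc U) + law p (perc U)ᶜ := by
    rw [← union_compl_self (perc U)]
    exact measure_union_le _ _
  rw [measure_univ, hcompl, add_zero] at h1
  exact h1

/-- the finite volume quantity as a polynomial -/
noncomputable def pol (U : Finset (Finset Site)) (n : ℕ) (q : ℝ) : ℝ := by
  classical
  exact ∑ η : (box 0 n : Finset Site) → Bool, if η ∈ tr (box 0 n) (hl U 0 n) then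
    ∏ i : (box 0 n : Finset Site), (if η i = true then q else 1 - q) else 0

theorem th_eq (p : unitInterval) (n : ℕ) : th U p n = pol U n p := by
  classical
  unfold th pol
  rw [measureReal_def, law_eq, Pm_eq_sum (bernoulliMeasure true false p) (hl_dep (U := U) 0 n),
    ENNReal.toReal_sum]
  · apply Finset.sum_congr rfl
    intro η _
    split_ifs
    · rw [ENNReal.toReal_prod]
      apply Finset.prod_congr rfl
      intro i _
      have h := bernoulliMeasure_real_apply (x := true) (y := false) p (s := {η i})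
        (measurableSet_singleton _)
      rw [measureReal_def] at h
      rw [h]
      cases h2 : η i
      · simp
      · simp
    · simp
  · intro η _
    split_ifs
    · exact ENNReal.prod_ne_top (fun i _ => measure_ne_top _ _)
    · simp

theorem pol_cont (n : ℕ) : Continuous (pol U n) := by
  classical
  unfold pol
  apply continuous_finsetSum
  intro η _
  split_ifs
  · apply continuous_finsetProd
    intro i _
    split_ifs
    · exact continuous_id
    · exact continuous_const.sub continuous_id
  · exact continuous_const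

theorem pc_le {p : unitInterval} (h : law p (perc U) = 1) : pc U ≤ p := by
  unfold pc
  apply csInf_le
  · refine ⟨0, ?_⟩
    rintro q ⟨p', rfl, _⟩
    exact p'.2.1
  · exact ⟨p, rfl, h⟩

theorem th_at_pc {r m : ℕ} (hr : Range U r) (hr1 : 1 ≤ r) (hrm : r ≤ m) (hN : NoFinite U)
    (p : unitInterval) (hp : (p : ℝ) = pc U) (hp0 : 0 < pc U) : 1 / (256 * r) ≤ m * th U p m := by
  by_contra hcon
  push Not at hcon
  rw [th_eq] at hcon
  have hcont : Continuous (fun q : ℝ => (m : ℝ) * pol U m q) := continuous_const.mul (pol_cont m)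
  have h1 : ∀ᶠ q in nhds (p : ℝ), (m : ℝ) * pol U m q < 1 / (256 * r) :=
    (hcont.tendsto _).eventually_lt_const hcon
  have h2 : ∀ᶠ q in nhdsWithin (p : ℝ) (Iio (p : ℝ)), (m : ℝ) * pol U m q < 1 / (256 * r) :=
    h1.filter_mono nhdsWithin_le_nhds
  have h3 : ∀ᶠ q in nhdsWithin (p : ℝ) (Iio (p : ℝ)), q ∈ Ioo (0 : ℝ) p :=
    Ioo_mem_nhdsLT (by rw [hp]; exact hp0)
  obtain ⟨q, hq1, hq2⟩ := (h2.and h3).exists
  have hqI : q ∈ Icc (0 : ℝ) 1 := ⟨hq2.1.le, hq2.2.le.trans p.2.2⟩
  have h4 := criterion hr hr1 hrm hN ⟨q, hqI⟩ (by rw [th_eq]; exact hq1.le)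
  have h5 := pc_le h4
  have : pc U ≤ q := h5
  rw [← hp] at this
  linarith [hq2.2]

theorem law_one : law 1 = Measure.dirac (fun _ => true) := by
  unfold law
  simp only [bernoulliMeasure_one]
  exact Measure.infinitePi_dirac _

theorem law_zero : law 0 = Measure.dirac (fun _ => false) := by
  unfold law
  simp only [bernoulliMeasure_zero]
  exact Measure.infinitePi_dirac _

theorem init_true : init (fun _ => true) = univ := by
  ext x; simp [init]

theorem perc_one : law 1 (perc U) = 1 := by
  rw [law_one]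
  apply Measure.dirac_apply_of_mem
  show cl U (init (fun _ => true)) = univ
  rw [init_true]
  exact eq_univ_of_univ_subset (sub_cl _)

theorem pc_lt_one (hN : NoFinite U) : pc U < 1 := by
  obtain ⟨r, hr1, hr⟩ := exists_range U
  have hr0 : (0 : ℝ) < r := by exact_mod_cast hr1
  have h0 : th U 1 r = 0 := by
    unfold th
    rw [measureReal_def, law_one, Measure.dirac_apply' _ (hl_meas 0 r)]
    have : (fun _ : Site => true) ∉ hl U 0 r := by
      intro h
      apply h
      apply sub_cl
      refine ⟨rfl, ?_⟩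
      rw [Finset.mem_coe, mem_box]
      simp
    simp [this]
  have hcont : Continuous (fun q : ℝ => (r : ℝ) * pol U r q) := continuous_const.mul (pol_cont r)
  have h1 : ∀ᶠ q in nhds (1 : ℝ), (r : ℝ) * pol U r q < 1 / (256 * r) := by
    apply (hcont.tendsto _).eventually_lt_const
    have : pol U r 1 = 0 := by
      have := th_eq (U := U) 1 r
      rw [h0] at this
      simpa using this.symm
    show (r : ℝ) * pol U r 1 < 1 / (256 * r)
    rw [this, mul_zero]
    positivity
  have h2 : ∀ᶠ q in nhdsWithin (1 : ℝ) (Iio (1 : ℝ)), (r : ℝ) * pol U r q < 1 / (256 * r) :=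
    h1.filter_mono nhdsWithin_le_nhds
  have h3 : ∀ᶠ q in nhdsWithin (1 : ℝ) (Iio (1 : ℝ)), q ∈ Ioo (0 : ℝ) 1 :=
    Ioo_mem_nhdsLT (by norm_num)
  obtain ⟨q, hq1, hq2⟩ := (h2.and h3).exists
  have hqI : q ∈ Icc (0 : ℝ) 1 := ⟨hq2.1.le, hq2.2.le⟩
  have h4 := criterion hr hr1 le_rfl hN ⟨q, hqI⟩ (by rw [th_eq]; exact hq1.le)
  have h5 : pc U ≤ q := pc_le h4
  linarith [hq2.2]

theorem pc_eq_one (hN : ¬ NoFinite U) : pc U = 1 := by
  unfold NoFinite at hN
  push Not at hN
  obtain ⟨H, hHn, hH⟩ := hN
  have hset : {q : ℝ | ∃ p : unitInterval, (p : ℝ) = q ∧ law p (perc U) = 1} = {1} := by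
    ext q
    rw [mem_singleton_iff]
    constructor
    · rintro ⟨p, rfl, hp⟩
      by_contra hne
      have hp1 : (p : ℝ) < 1 := lt_of_le_of_ne p.2.2 hne
      set E : Set (Site → Bool) := Set.pi (H : Set Site) (fun _ => {false}) with hE
      have hEm : MeasurableSet E := by
        apply MeasurableSet.pi (Finset.countable_toSet H)
        intro i _
        exact measurableSet_singleton _
      have hEp : law p E ≠ 0 := by
        rw [hE]
        unfold law
        rw [Measure.infinitePi_pi _ (fun i _ => measurableSet_singleton _)]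
        rw [Finset.prod_ne_zero_iff]
        intro i _ h
        have h2 := bernoulliMeasure_real_apply (x := true) (y := false) p (s := {false})
          (measurableSet_singleton _)
        rw [measureReal_def, h] at h2
        simp at h2
        apply hne
        have : (p : ℝ) = 1 := by linarith
        exact this
      have hsub : perc U ⊆ Eᶜ := by
        intro ω hω hωE
        obtain ⟨x, hx⟩ := hHn
        have h1 : cl U (init ω) ⊆ (H : Set Site)ᶜ := by
          apply cl_min
          · intro y hy hyH
            have := hωE y hyH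
            rw [mem_singleton_iff] at this
            have h2 : ω y = true := hy
            rw [this] at h2
            cases h2
          · intro y X hX h2 hyH
            obtain ⟨z, hz1, hz2⟩ := hH y hyH X hX
            exact h2 z hz1 hz2
        have h3 : cl U (init ω) = univ := hω
        rw [h3] at h1
        exact h1 (mem_univ x) hx
      have h4 : law p (perc U) ≤ law p Eᶜ := measure_mono hsub
      rw [hp, measure_compl hEm (measure_ne_top _ _), measure_univ] at h4
      have h5 : (1 : ℝ≥0∞) - law p E < 1 := ENNReal.sub_lt_self ENNReal.one_ne_top one_ne_zero hEp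
      exact absurd h4 (not_le.2 h5)
    · rintro rfl
      exact ⟨1, rfl, perc_one⟩
  unfold pc
  rw [hset]
  simp

/-- lower bound for the tail of the occupation time -/
theorem hl_sub_T {r : ℕ} (hr : Range U r) (t : ℕ) : hl U 0 (r * t) ⊆ {ω | (t : ℝ≥0∞) < T U ω} := by
  intro ω hω
  have h1 : ((t + 1 : ℕ) : ℝ≥0∞) ≤ T U ω := by
    unfold T
    refine le_iInf₂ ?_
    intro s hs
    by_contra hcon
    push Not at hcon
    have h2 : s < t + 1 := by exact_mod_cast hcon
    apply hω
    have h3 : (0 : Site) ∈ At U (init ω) t := At_le (by omega) hs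
    exact mem_iUnion.2 ⟨t, At_local hr _ t 0 h3⟩
  refine lt_of_lt_of_le ?_ h1
  exact_mod_cast Nat.lt_succ_self t

theorem tail {r : ℕ} (hr : Range U r) (hr1 : 1 ≤ r) (hN : NoFinite U)
    (p : unitInterval) (hp : (p : ℝ) = pc U) (hp0 : 0 < pc U) {t : ℕ} (ht : 1 ≤ t) :
    1 / (256 * r ^ 2) / t ≤ th U p (r * t) := by
  have hr0 : (0 : ℝ) < r := by exact_mod_cast hr1
  have ht0 : (0 : ℝ) < t := by exact_mod_cast ht
  have h := th_at_pc hr hr1 (m := r * t) (Nat.le_mul_of_pos_right r ht) hN p hp hp0
  push_cast at h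
  rw [div_le_iff₀ (by positivity)] at h
  rw [div_div, div_le_iff₀ (by positivity)]
  nlinarith

theorem integral_infinite {r : ℕ} (hr : Range U r) (hr1 : 1 ≤ r) (hN : NoFinite U)
    (p : unitInterval) (hp : (p : ℝ) = pc U) (hp0 : 0 < pc U) : ∫⁻ ω, T U ω ∂(law p) = ∞ := by
  set c : ℝ := 1 / (256 * r ^ 2) with hc
  have hr0 : (0 : ℝ) < r := by exact_mod_cast hr1
  have hc0 : 0 < c := by positivity
  have h1 : ∀ N : ℕ, ENNReal.ofReal (c * ∑ i ∈ Finset.range N, 1 / ((i : ℝ) + 1)) ≤
      ∫⁻ ω, T U ω ∂(law p) := by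
    intro N
    have h2 : ∀ ω, ∑ i ∈ Finset.range N, (hl U 0 (r * (i + 1))).indicator (fun _ => (1 : ℝ≥0∞)) ω ≤
        T U ω := by
      intro ω
      unfold T
      refine le_iInf₂ ?_
      intro s hs
      have h3 : ∀ i ∈ Finset.range N, (hl U 0 (r * (i + 1))).indicator (fun _ => (1 : ℝ≥0∞)) ω ≤
          if i < s then 1 else 0 := by
        intro i _
        by_cases his : i < s
        · rw [if_pos his]
          exact indicator_le_self' (fun _ _ => zero_le) ω
        · rw [if_neg his, indicator_of_notMem]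
          intro hcon
          have h4 := hl_sub_T hr (i + 1) hcon
          have h5 : T U ω ≤ s := iInf₂_le s hs
          have h6 : ((i + 1 : ℕ) : ℝ≥0∞) < s := lt_of_lt_of_le h4 h5
          have : i + 1 < s := by exact_mod_cast h6
          omega
      refine le_trans (Finset.sum_le_sum h3) ?_
      rw [← Finset.sum_filter, Finset.sum_const, nsmul_eq_mul, mul_one]
      have : ((Finset.range N).filter (fun i => i < s)).card ≤ s := by
        calc _ ≤ (Finset.range s).card := by
              apply Finset.card_le_card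
              intro i hi
              rw [Finset.mem_filter] at hi
              exact Finset.mem_range.2 hi.2
          _ = s := Finset.card_range s
      exact_mod_cast this
    calc ENNReal.ofReal (c * ∑ i ∈ Finset.range N, 1 / ((i : ℝ) + 1))
        ≤ ∑ i ∈ Finset.range N, law p (hl U 0 (r * (i + 1))) := by
          rw [Finset.mul_sum, ENNReal.ofReal_sum_of_nonneg (fun i _ => by positivity)]
          apply Finset.sum_le_sum
          intro i _
          have h7 := tail hr hr1 hN p hp hp0 (t := i + 1) (by omega)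
          unfold th at h7
          rw [measureReal_def] at h7
          rw [← ENNReal.ofReal_toReal (measure_ne_top (law p) (hl U 0 (r * (i + 1))))]
          apply ENNReal.ofReal_le_ofReal
          refine le_trans (le_of_eq ?_) h7
          push_cast
          rw [hc]
          ring
      _ = ∑ i ∈ Finset.range N, ∫⁻ ω, (hl U 0 (r * (i + 1))).indicator (fun _ => (1 : ℝ≥0∞)) ω ∂(law p) := by
          apply Finset.sum_congr rfl
          intro i _
          rw [lintegral_indicator_const (hl_meas 0 _), one_mul]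
      _ = ∫⁻ ω, ∑ i ∈ Finset.range N, (hl U 0 (r * (i + 1))).indicator (fun _ => (1 : ℝ≥0∞)) ω ∂(law p) := by
          rw [lintegral_finsetSum]
          intro i _
          exact measurable_const.indicator (hl_meas 0 _)
      _ ≤ ∫⁻ ω, T U ω ∂(law p) := lintegral_mono h2
  have h8 : Filter.Tendsto (fun N : ℕ => c * ∑ i ∈ Finset.range N, 1 / ((i : ℝ) + 1)) Filter.atTop
      Filter.atTop := (Real.tendsto_sum_range_one_div_nat_succ_atTop).const_mul_atTop hc0
  by_contra hne
  have h9 := h8.eventually_gt_atTop (∫⁻ ω, T U ω ∂(law p)).toReal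
  obtain ⟨N, hN2⟩ := h9.exists
  have h10 := h1 N
  rw [← ENNReal.ofReal_toReal hne, ENNReal.ofReal_le_ofReal_iff ENNReal.toReal_nonneg] at h10
  linarith

theorem T_zero (ω : Site → Bool) (h : ω 0 = true) : T U ω = 0 := by
  unfold T
  apply le_antisymm _ zero_le
  refine iInf₂_le_of_le 0 h ?_
  simp

end Pool.Agent.H500R3.UB
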